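import Mathlib

/-!
Discrete estimates with the kernel `2 ^ (-|m - p|)` (finite sums).
-/

set_option autoImplicit false

namespace Pool.Agent.Y290.NE

open Finset

/-- exponential kernel -/
noncomputable def hh (m p : ℕ) : ℝ := (1 / 2 : ℝ) ^ ((m - p) + (p - m))

lemma hh_pos (m p : ℕ) : 0 < hh m p := by unfold hh; positivity

lemma hh_comm (m p : ℕ) : hh m p = hh p m := by unfold hh; rw [add_comm]

lemma geo_le (n : ℕ) : ∑ j ∈ range n, (1 / 2 : ℝ) ^ j ≤ 2 := by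
  have h : ∀ n : ℕ, ∑ j ∈ range n, (1 / 2 : ℝ) ^ j = 2 - 2 * (1 / 2) ^ n := by
    intro n
    induction n with
    | zero => simp
    | succ n ih => rw [Finset.sum_range_succ, ih, pow_succ]; ring
  rw [h]
  have : (0 : ℝ) < (1 / 2) ^ n := by positivity
  linarith

lemma hh_sum (m N : ℕ) : ∑ p ∈ range N, hh m p ≤ 4 := by
  have h1 : ∑ p ∈ range N, hh m p ≤ ∑ p ∈ range (m + N), hh m p := by
    apply Finset.sum_le_sum_of_subset_of_nonneg
    · intro x hx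
      rw [Finset.mem_range] at hx ⊢
      omega
    · intro i _ _
      exact (hh_pos m i).le
  refine h1.trans ?_
  rw [Finset.sum_range_add]
  have h2 : ∑ p ∈ range m, hh m p ≤ 2 := by
    have h3 : ∑ p ∈ range m, hh m p = ∑ p ∈ range m, (1 / 2 : ℝ) ^ (m - 1 - p + 1) := by
      apply Finset.sum_congr rfl
      intro p hp
      rw [Finset.mem_range] at hp
      unfold hh
      congr 1
      omega
    rw [h3, Finset.sum_range_reflect (fun j => (1 / 2 : ℝ) ^ (j + 1)) m]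
    refine le_trans (Finset.sum_le_sum fun j _ => ?_) (geo_le m)
    rw [pow_succ]
    have : (0 : ℝ) < (1 / 2) ^ j := by positivity
    linarith
  have h4 : ∑ p ∈ range N, hh m (m + p) ≤ 2 := by
    have h5 : ∑ p ∈ range N, hh m (m + p) = ∑ p ∈ range N, (1 / 2 : ℝ) ^ p := by
      apply Finset.sum_congr rfl
      intro p _
      unfold hh
      congr 1
      omega
    rw [h5]
    exact geo_le N
  linarith

/-- Schur's test -/
lemma schur (X : ℕ → ℝ) (N N' : ℕ) :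
    ∑ m ∈ range N', (∑ p ∈ range N, hh m p * X p) ^ 2 ≤ 16 * ∑ p ∈ range N, X p ^ 2 := by
  have h1 : ∀ m, (∑ p ∈ range N, hh m p * X p) ^ 2 ≤ 4 * ∑ p ∈ range N, hh m p * X p ^ 2 := by
    intro m
    have h2 : (∑ p ∈ range N, hh m p * X p) ^ 2 ≤
        (∑ p ∈ range N, hh m p) * ∑ p ∈ range N, hh m p * X p ^ 2 := by
      apply Finset.sum_sq_le_sum_mul_sum_of_sq_le_mul
      · intro i _; exact (hh_pos m i).le
      · intro i _; exact mul_nonneg (hh_pos m i).le (sq_nonneg _)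
      · intro i _; exact le_of_eq (by ring)
    refine h2.trans ?_
    apply mul_le_mul_of_nonneg_right (hh_sum m N)
    exact Finset.sum_nonneg fun i _ => mul_nonneg (hh_pos m i).le (sq_nonneg _)
  calc ∑ m ∈ range N', (∑ p ∈ range N, hh m p * X p) ^ 2
      ≤ ∑ m ∈ range N', 4 * ∑ p ∈ range N, hh m p * X p ^ 2 := Finset.sum_le_sum fun m _ => h1 m
    _ = 4 * ∑ p ∈ range N, (∑ m ∈ range N', hh p m) * X p ^ 2 := by
        rw [← Finset.mul_sum, Finset.sum_comm]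
        congr 1
        apply Finset.sum_congr rfl
        intro p _
        rw [Finset.sum_mul]
        apply Finset.sum_congr rfl
        intro m _
        rw [hh_comm]
    _ ≤ 4 * ∑ p ∈ range N, 4 * X p ^ 2 := by
        apply mul_le_mul_of_nonneg_left _ (by norm_num)
        exact Finset.sum_le_sum fun p _ => mul_le_mul_of_nonneg_right (hh_sum p N') (sq_nonneg _)
    _ = 16 * ∑ p ∈ range N, X p ^ 2 := by rw [← Finset.mul_sum]; ring

lemma bilin (x y : ℕ → ℝ) (N : ℕ) :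
    ∑ p ∈ range N, ∑ q ∈ range N, hh p q * (x p * y q) ≤
      4 * √(∑ p ∈ range N, x p ^ 2) * √(∑ q ∈ range N, y q ^ 2) := by
  have h1 : ∑ p ∈ range N, ∑ q ∈ range N, hh p q * (x p * y q) =
      ∑ p ∈ range N, x p * ∑ q ∈ range N, hh p q * y q := by
    apply Finset.sum_congr rfl
    intro p _
    rw [Finset.mul_sum]
    apply Finset.sum_congr rfl
    intro q _
    ring
  rw [h1]
  refine (Real.sum_mul_le_sqrt_mul_sqrt _ _ _).trans ?_
  have h2 : √(∑ i ∈ range N, (∑ q ∈ range N, hh i q * y q) ^ 2) ≤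
      4 * √(∑ q ∈ range N, y q ^ 2) := by
    rw [show (4 : ℝ) = √16 by rw [show (16 : ℝ) = 4 ^ 2 by norm_num]; exact (Real.sqrt_sq (by norm_num)).symm,
      ← Real.sqrt_mul (by norm_num)]
    exact Real.sqrt_le_sqrt (schur y N N)
  calc _ ≤ √(∑ p ∈ range N, x p ^ 2) * (4 * √(∑ q ∈ range N, y q ^ 2)) :=
        mul_le_mul_of_nonneg_left h2 (Real.sqrt_nonneg _)
    _ = _ := by ring

lemma near_hh {m p q : ℕ} (h2 : p ≤ max m q + 1) (h3 : q ≤ max m p + 1) :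
    1 ≤ 2 ^ (m + 1) * hh p q := by
  unfold hh
  rw [one_div, inv_pow, ← div_eq_mul_inv, le_div_iff₀ (by positivity), one_mul]
  apply pow_le_pow_right₀ (by norm_num)
  omega

/-- discrete bilinear estimate -/
lemma discr {w : ℕ → ℕ → ℕ → ℝ} {Z1 Z2 Y1 Y2 : ℕ → ℝ} (hZ1 : ∀ p, 0 ≤ Z1 p) (hZ2 : ∀ p, 0 ≤ Z2 p)
    (hY1 : ∀ p, 0 ≤ Y1 p) (hY2 : ∀ p, 0 ≤ Y2 p) {a1 a2 b1 b2 K : ℝ} (hK : 0 ≤ K) (ha1 : 0 ≤ a1)
    (hb1 : 0 ≤ b1) (N N' : ℕ)
    (hz1 : ∑ p ∈ range N, Z1 p ^ 2 ≤ a1 ^ 2) (hz2 : ∑ p ∈ range N, Z2 p ^ 2 ≤ a2)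
    (hy1 : ∑ p ∈ range N, Y1 p ^ 2 ≤ b1 ^ 2) (hy2 : ∑ p ∈ range N, Y2 p ^ 2 ≤ b2)
    (hw : ∀ m p q, w m p q ≤ K * ((1 / 2) ^ p * Z1 p * (hh m q * Y2 q) +
      hh m p * Z2 p * ((1 / 2) ^ q * Y1 q) + hh m p * Z2 p * (hh m q * Y1 q)))
    (hw0 : ∀ m p q, 0 ≤ w m p q) :
    ∑ m ∈ range N', (∑ p ∈ range N, ∑ q ∈ range N, w m p q) ^ 2 ≤
      1152 * K ^ 2 * (a1 ^ 2 * b2 + a2 * b1 ^ 2) := by
  have hpt : ∀ (X : ℕ → ℝ) (x : ℝ), 0 ≤ x → ∑ p ∈ range N, X p ^ 2 ≤ x ^ 2 →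
      ∀ p ∈ range N, X p ≤ x := by
    intro X x hx hX p hp
    have h1 : X p ^ 2 ≤ x ^ 2 :=
      (Finset.single_le_sum (f := fun p => X p ^ 2) (fun i _ => sq_nonneg _) hp).trans hX
    exact le_of_sq_le_sq h1 hx
  have e1 : ∑ p ∈ range N, (1 / 2 : ℝ) ^ p * Z1 p ≤ 2 * a1 := by
    calc _ ≤ ∑ p ∈ range N, (1 / 2 : ℝ) ^ p * a1 := by
          apply Finset.sum_le_sum
          intro p hp
          exact mul_le_mul_of_nonneg_left (hpt Z1 a1 ha1 hz1 p hp) (by positivity)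
      _ = (∑ p ∈ range N, (1 / 2 : ℝ) ^ p) * a1 := by rw [Finset.sum_mul]
      _ ≤ 2 * a1 := mul_le_mul_of_nonneg_right (geo_le N) ha1
  have e2 : ∑ q ∈ range N, (1 / 2 : ℝ) ^ q * Y1 q ≤ 2 * b1 := by
    calc _ ≤ ∑ p ∈ range N, (1 / 2 : ℝ) ^ p * b1 := by
          apply Finset.sum_le_sum
          intro p hp
          exact mul_le_mul_of_nonneg_left (hpt Y1 b1 hb1 hy1 p hp) (by positivity)
      _ = (∑ p ∈ range N, (1 / 2 : ℝ) ^ p) * b1 := by rw [Finset.sum_mul]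
      _ ≤ 2 * b1 := mul_le_mul_of_nonneg_right (geo_le N) hb1
  have e3 : ∀ m, ∑ q ∈ range N, hh m q * Y1 q ≤ 4 * b1 := by
    intro m
    calc _ ≤ ∑ p ∈ range N, hh m p * b1 := by
          apply Finset.sum_le_sum
          intro p hp
          exact mul_le_mul_of_nonneg_left (hpt Y1 b1 hb1 hy1 p hp) (hh_pos m p).le
      _ = (∑ p ∈ range N, hh m p) * b1 := by rw [Finset.sum_mul]
      _ ≤ 4 * b1 := mul_le_mul_of_nonneg_right (hh_sum m N) hb1
  have e4 : ∀ m, ∑ p ∈ range N, ∑ q ∈ range N, w m p q ≤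
      K * (6 * (a1 * ∑ q ∈ range N, hh m q * Y2 q) + 6 * (b1 * ∑ p ∈ range N, hh m p * Z2 p)) := by
    intro m
    have hHY : 0 ≤ ∑ q ∈ range N, hh m q * Y2 q :=
      Finset.sum_nonneg fun q _ => mul_nonneg (hh_pos m q).le (hY2 q)
    have hHZ : 0 ≤ ∑ q ∈ range N, hh m q * Z2 q :=
      Finset.sum_nonneg fun q _ => mul_nonneg (hh_pos m q).le (hZ2 q)
    calc _ ≤ ∑ p ∈ range N, ∑ q ∈ range N, K * ((1 / 2) ^ p * Z1 p * (hh m q * Y2 q) +
      hh m p * Z2 p * ((1 / 2) ^ q * Y1 q) + hh m p * Z2 p * (hh m q * Y1 q)) :=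
          Finset.sum_le_sum fun p _ => Finset.sum_le_sum fun q _ => hw m p q
      _ = K * ((∑ p ∈ range N, (1 / 2 : ℝ) ^ p * Z1 p) * (∑ q ∈ range N, hh m q * Y2 q) +
          (∑ p ∈ range N, hh m p * Z2 p) * (∑ q ∈ range N, (1 / 2 : ℝ) ^ q * Y1 q) +
          (∑ p ∈ range N, hh m p * Z2 p) * (∑ q ∈ range N, hh m q * Y1 q)) := by
          rw [Finset.sum_mul_sum, Finset.sum_mul_sum, Finset.sum_mul_sum, ← Finset.sum_add_distrib,
            ← Finset.sum_add_distrib, Finset.mul_sum]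
          apply Finset.sum_congr rfl
          intro p _
          rw [← Finset.sum_add_distrib, ← Finset.sum_add_distrib, Finset.mul_sum]
      _ ≤ K * ((2 * a1) * (∑ q ∈ range N, hh m q * Y2 q) +
          (∑ p ∈ range N, hh m p * Z2 p) * (2 * b1) +
          (∑ p ∈ range N, hh m p * Z2 p) * (4 * b1)) := by
          apply mul_le_mul_of_nonneg_left _ hK
          exact add_le_add (add_le_add (mul_le_mul_of_nonneg_right e1 hHY)
            (mul_le_mul_of_nonneg_left e2 hHZ)) (mul_le_mul_of_nonneg_left (e3 m) hHZ)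
      _ ≤ _ := by
          apply mul_le_mul_of_nonneg_left _ hK
          nlinarith [mul_nonneg ha1 hHY]
  have e5 : ∀ m, (∑ p ∈ range N, ∑ q ∈ range N, w m p q) ^ 2 ≤
      72 * K ^ 2 * (a1 ^ 2 * (∑ q ∈ range N, hh m q * Y2 q) ^ 2 +
        b1 ^ 2 * (∑ p ∈ range N, hh m p * Z2 p) ^ 2) := by
    intro m
    have h0 : 0 ≤ ∑ p ∈ range N, ∑ q ∈ range N, w m p q :=
      Finset.sum_nonneg fun p _ => Finset.sum_nonneg fun q _ => hw0 m p q
    refine (pow_le_pow_left₀ h0 (e4 m) 2).trans ?_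
    set u := a1 * ∑ q ∈ range N, hh m q * Y2 q
    set v := b1 * ∑ p ∈ range N, hh m p * Z2 p
    have : 72 * K ^ 2 * (a1 ^ 2 * (∑ q ∈ range N, hh m q * Y2 q) ^ 2 +
        b1 ^ 2 * (∑ p ∈ range N, hh m p * Z2 p) ^ 2) - (K * (6 * u + 6 * v)) ^ 2 =
        36 * K ^ 2 * (u - v) ^ 2 := by
      simp only [u, v]; ring
    have h2 : 0 ≤ 36 * K ^ 2 * (u - v) ^ 2 := by positivity
    linarith
  calc ∑ m ∈ range N', (∑ p ∈ range N, ∑ q ∈ range N, w m p q) ^ 2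
      ≤ ∑ m ∈ range N', 72 * K ^ 2 * (a1 ^ 2 * (∑ q ∈ range N, hh m q * Y2 q) ^ 2 +
        b1 ^ 2 * (∑ p ∈ range N, hh m p * Z2 p) ^ 2) := Finset.sum_le_sum fun m _ => e5 m
    _ = 72 * K ^ 2 * (a1 ^ 2 * ∑ m ∈ range N', (∑ q ∈ range N, hh m q * Y2 q) ^ 2 +
        b1 ^ 2 * ∑ m ∈ range N', (∑ p ∈ range N, hh m p * Z2 p) ^ 2) := by
        rw [← Finset.mul_sum, Finset.sum_add_distrib, Finset.mul_sum, Finset.mul_sum]
    _ ≤ 72 * K ^ 2 * (a1 ^ 2 * (16 * b2) + b1 ^ 2 * (16 * a2)) := by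
        apply mul_le_mul_of_nonneg_left _ (by positivity)
        apply add_le_add
        · apply mul_le_mul_of_nonneg_left _ (sq_nonneg _)
          exact (schur Y2 N N').trans (mul_le_mul_of_nonneg_left hy2 (by norm_num))
        · apply mul_le_mul_of_nonneg_left _ (sq_nonneg _)
          exact (schur Z2 N N').trans (mul_le_mul_of_nonneg_left hz2 (by norm_num))
    _ = _ := by ring

end Pool.Agent.Y290.NE
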