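import Pool.Agent.Y290.NE.Est

/-!
`S_EST2`: the kernels satisfy the hypotheses of the well-posedness theorem.
-/

open Set Filter Topology

set_option autoImplicit false

namespace Pool.Agent.Y290.NE

open Pool.Agent.Y5.D Pool.Agent.Y5.E

section

variable {J : Type} {g : J → ℕ} {lam Λ M : ℝ} {L C ℓ : ℕ → ℝ} {B : ℕ → ℕ → ℝ}
  {c : Ix J → Ix J → Ix J → ℝ}

lemma nk_nonneg {I : Type} (r : I → ℝ) (k : ℕ) (z : I → ℝ) : 0 ≤ nk r k z :=
  tsum_nonneg fun _ => sq_nonneg _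

lemma d_low (hS : Sq lam Λ M L C ℓ B) : ∃ a, 0 < a ∧ ∀ (m : ℕ) (i : Ix J), gr g i = m →
    a * (Λ ^ m) ^ 2 ≤ 1 + dE ℓ L (Real.exp lam) g i := by
  obtain ⟨a, ha, hl⟩ := hS.ℓ_low
  have hΛ := hS.Λ_ge
  have hlam := lam_two hS
  refine ⟨min 1 a, lt_min one_pos ha, ?_⟩
  rintro m (n | j) hi
  · have hi' : n = m := hi
    subst hi'
    have h1 := hl n
    have h2 : (0 : ℝ) ≤ (Λ ^ n) ^ 2 := sq_nonneg _
    have h3 : min 1 a * (Λ ^ n) ^ 2 ≤ a * (Λ ^ n) ^ 2 :=
      mul_le_mul_of_nonneg_right (min_le_right _ _) h2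
    have h4 : dE ℓ L (Real.exp lam) g (Sum.inl n) = ℓ n := rfl
    rw [h4]
    have h5 : Λ ^ (2 * n) = (Λ ^ n) ^ 2 := by rw [← pow_mul, mul_comm]
    rw [h5] at h1
    linarith
  · have hi' : g j = m := hi
    have h4 : dE ℓ L (Real.exp lam) g (Sum.inr j) = Real.exp lam * L (g j) := rfl
    rw [h4, hi']
    have h2 : (0 : ℝ) ≤ (Λ ^ m) ^ 2 := sq_nonneg _
    have h3 : min 1 a * (Λ ^ m) ^ 2 ≤ 1 * (Λ ^ m) ^ 2 :=
      mul_le_mul_of_nonneg_right (min_le_left _ _) h2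
    have h5 : (Λ ^ m) ^ 2 ≤ L m := by
      have h6 : ∀ n : ℕ, (Λ ^ n) ^ 2 ≤ L n := by
        intro n
        induction n with
        | zero => simpa using hS.L0
        | succ n ih =>
          rw [hS.L_succ]
          calc (Λ ^ (n + 1)) ^ 2 = Λ ^ 2 * (Λ ^ n) ^ 2 := by ring
            _ ≤ lam * L n := mul_le_mul hS.Λ_sq ih (sq_nonneg _) (by linarith)
      exact h6 m
    have h7 : 1 ≤ Real.exp lam := Real.one_le_exp (by linarith)
    have h8 := L_pos hS m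
    nlinarith

lemma est_N (hK : Ker g Λ M L C B c) (hS : Sq lam Λ M L C ℓ B) (k : ℕ) (z y : Ix J → ℝ)
    (hz : Sk (rI L g) (k + 1) z) (hy : Sk (rI L g) (k + 1) y)
    (hz1 : Sk (rI L g) 1 z) (hy1 : Sk (rI L g) 1 y) (N N' : ℕ) :
    ∑ m ∈ Finset.range N', ∑ i ∈ GG hK.fin m,
      (L m ^ (k + 1) * (Λ ^ m)⁻¹) ^ 2 * blN hK.fin c z y N i ^ 2 ≤
      1152 * (2 * M * lam ^ (k + 1)) ^ 2 * (nk (rI L g) 1 z * nk (rI L g) (k + 1) y +
        nk (rI L g) (k + 1) z * nk (rI L g) 1 y) := by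
  have hM := hS.M_one
  have hΛ := hS.Λ_ge
  have hlam := lam_two hS
  have hL := L_pos hS
  have hZ := zn_nonneg hK.fin z
  have hY := zn_nonneg hK.fin y
  have e1 : ∀ m, ∑ i ∈ GG hK.fin m,
      (L m ^ (k + 1) * (Λ ^ m)⁻¹) ^ 2 * blN hK.fin c z y N i ^ 2 ≤
      (∑ p ∈ Finset.range N, ∑ q ∈ Finset.range N, L m ^ (k + 1) * (Λ ^ m)⁻¹ *
        (wg Λ M L m p q * zn hK.fin z p * zn hK.fin y q)) ^ 2 := by
    intro m
    rw [← Finset.mul_sum]
    have h1 := blN_le hK hS z y N m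
    have h2 : ∑ i ∈ GG hK.fin m, blN hK.fin c z y N i ^ 2 ≤
        (∑ p ∈ Finset.range N, ∑ q ∈ Finset.range N,
        wg Λ M L m p q * zn hK.fin z p * zn hK.fin y q) ^ 2 := by
      rw [← Real.sq_sqrt (Finset.sum_nonneg fun i (_ : i ∈ GG hK.fin m) =>
        sq_nonneg (blN hK.fin c z y N i))]
      exact pow_le_pow_left₀ (Real.sqrt_nonneg _) h1 2
    calc _ ≤ (L m ^ (k + 1) * (Λ ^ m)⁻¹) ^ 2 * (∑ p ∈ Finset.range N, ∑ q ∈ Finset.range N,
        wg Λ M L m p q * zn hK.fin z p * zn hK.fin y q) ^ 2 :=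
          mul_le_mul_of_nonneg_left h2 (sq_nonneg _)
      _ = (L m ^ (k + 1) * (Λ ^ m)⁻¹ * (∑ p ∈ Finset.range N, ∑ q ∈ Finset.range N,
        wg Λ M L m p q * zn hK.fin z p * zn hK.fin y q)) ^ 2 := by rw [← mul_pow]
      _ = _ := by
        congr 1
        rw [Finset.mul_sum]
        refine Finset.sum_congr rfl fun p _ => ?_
        rw [Finset.mul_sum]
  refine (Finset.sum_le_sum fun m _ => e1 m).trans ?_
  have h := discr (w := fun m p q => L m ^ (k + 1) * (Λ ^ m)⁻¹ *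
        (wg Λ M L m p q * zn hK.fin z p * zn hK.fin y q))
    (Z1 := fun p => L p ^ 1 * zn hK.fin z p) (Z2 := fun p => L p ^ (k + 1) * zn hK.fin z p)
    (Y1 := fun p => L p ^ 1 * zn hK.fin y p) (Y2 := fun p => L p ^ (k + 1) * zn hK.fin y p)
    (a1 := √(nk (rI L g) 1 z)) (a2 := nk (rI L g) (k + 1) z)
    (b1 := √(nk (rI L g) 1 y)) (b2 := nk (rI L g) (k + 1) y)
    (K := 2 * M * lam ^ (k + 1))
    (fun p => mul_nonneg (pow_nonneg (hL p).le _) (hZ p))
    (fun p => mul_nonneg (pow_nonneg (hL p).le _) (hZ p))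
    (fun p => mul_nonneg (pow_nonneg (hL p).le _) (hY p))
    (fun p => mul_nonneg (pow_nonneg (hL p).le _) (hY p))
    (by positivity) (Real.sqrt_nonneg _) (Real.sqrt_nonneg _) N N'
    (by rw [Real.sq_sqrt (nk_nonneg _ _ _)]; exact nk_le hK.fin 1 z hz1 N)
    (nk_le hK.fin (k + 1) z hz N)
    (by rw [Real.sq_sqrt (nk_nonneg _ _ _)]; exact nk_le hK.fin 1 y hy1 N)
    (nk_le hK.fin (k + 1) y hy N)
    (by
      intro m p q
      have h1 := wg_w hS k m p q
      have hΛm : 0 < Λ ^ m := pow_pos (by linarith) _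
      have h2 : 0 ≤ zn hK.fin z p * zn hK.fin y q := mul_nonneg (hZ p) (hY q)
      calc L m ^ (k + 1) * (Λ ^ m)⁻¹ * (wg Λ M L m p q * zn hK.fin z p * zn hK.fin y q)
          = (L m ^ (k + 1) * wg Λ M L m p q) *
            ((Λ ^ m)⁻¹ * (zn hK.fin z p * zn hK.fin y q)) := by ring
        _ ≤ (2 * M * lam ^ (k + 1) * Λ ^ m *
          ((1 / 2) ^ p * hh m q * (L p * L q ^ (k + 1)) +
          (1 / 2) ^ q * hh m p * (L p ^ (k + 1) * L q) +
          hh m p * hh m q * (L p ^ (k + 1) * L q))) *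
            ((Λ ^ m)⁻¹ * (zn hK.fin z p * zn hK.fin y q)) :=
          mul_le_mul_of_nonneg_right h1 (mul_nonneg (inv_nonneg.2 hΛm.le) h2)
        _ = 2 * M * lam ^ (k + 1) * ((1 / 2) ^ p * (L p ^ 1 * zn hK.fin z p) *
              (hh m q * (L q ^ (k + 1) * zn hK.fin y q)) +
            hh m p * (L p ^ (k + 1) * zn hK.fin z p) * ((1 / 2) ^ q * (L q ^ 1 * zn hK.fin y q)) +
            hh m p * (L p ^ (k + 1) * zn hK.fin z p) * (hh m q * (L q ^ 1 * zn hK.fin y q))) *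
              (Λ ^ m * (Λ ^ m)⁻¹) := by ring
        _ = _ := by rw [mul_inv_cancel₀ hΛm.ne', mul_one])
    (by
      intro m p q
      have hΛm : 0 < Λ ^ m := pow_pos (by linarith) _
      exact mul_nonneg (mul_nonneg (pow_nonneg (hL m).le _) (inv_nonneg.2 hΛm.le))
        (mul_nonneg (mul_nonneg (wg_nonneg hS hL m p q) (hZ p)) (hY q)))
  rw [Real.sq_sqrt (nk_nonneg _ _ _), Real.sq_sqrt (nk_nonneg _ _ _)] at h
  exact h

end

theorem t_EST2 : S_EST2 := by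
  intro J g lam Λ M L C ℓ B c hK hS
  have hM := hS.M_one
  have hΛ := hS.Λ_ge
  have hlam := lam_two hS
  have hL := L_pos hS
  have hL1 := (L_geo hS).1
  have hd0 : ∀ i, 0 ≤ dE ℓ L (Real.exp lam) g i := by
    rintro (n | j)
    · exact hS.ℓ_nonneg n
    · exact mul_nonneg (Real.exp_pos _).le (hL _).le
  refine ⟨hd0, fun i => hL1 _, ?_, ?_, ?_, ?_⟩
  · -- finiteness
    intro R
    obtain ⟨N, hN⟩ : ∃ N : ℕ, R < 2 ^ N := by
      obtain ⟨N, hN⟩ := pow_unbounded_of_one_lt R (show (1 : ℝ) < 2 by norm_num)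
      exact ⟨N, hN⟩
    apply (bfin hK.fin N).subset
    intro i hi
    by_contra hc
    have hc' : N ≤ gr g i := not_lt.1 hc
    have h1 : L N ≤ L (gr g i) := L_mono hS hc'
    have h2 := (L_geo hS).2 0 N
    rw [zero_add] at h2
    have h3 := hS.L0
    have h4 : rI L g i ≤ R := hi
    unfold rI at h4
    have h5 : (0 : ℝ) < 2 ^ N := by positivity
    nlinarith
  · intro i z y hz hy
    exact summ hK hS z y hz hy i
  · intro i
    exact ⟨_, fun z y hz hy => loc_est hK hS z y hz hy i⟩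
  · intro k
    obtain ⟨a, ha, hd⟩ := d_low (g := g) hS
    refine ⟨a⁻¹ * (1152 * (2 * M * lam ^ (k + 1)) ^ 2), ?_⟩
    intro z y hz hy
    have hmono : ∀ z : Ix J → ℝ, Sk (rI L g) (k + 1) z → Sk (rI L g) 1 z := by
      intro z hz
      apply Summable.of_nonneg_of_le (fun _ => sq_nonneg _) _ hz
      intro i
      have h1 : 1 ≤ rI L g i := hL1 _
      have h2 : rI L g i ^ 1 ≤ rI L g i ^ (k + 1) := pow_le_pow_right₀ h1 (by omega)
      rw [mul_pow, mul_pow]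
      apply mul_le_mul_of_nonneg_right _ (sq_nonneg _)
      apply pow_le_pow_left₀ (by positivity) h2
    have hz1 := hmono z hz
    have hy1 := hmono y hy
    set R := 1152 * (2 * M * lam ^ (k + 1)) ^ 2 * (nk (rI L g) 1 z * nk (rI L g) (k + 1) y +
        nk (rI L g) (k + 1) z * nk (rI L g) 1 y) with hR
    have e1 : ∀ N', ∑ m ∈ Finset.range N', ∑ i ∈ GG hK.fin m,
        (L m ^ (k + 1) * (Λ ^ m)⁻¹) ^ 2 * bl c z y i ^ 2 ≤ R := by
      intro N'
      have ht : Tendsto (fun N => ∑ m ∈ Finset.range N', ∑ i ∈ GG hK.fin m,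
          (L m ^ (k + 1) * (Λ ^ m)⁻¹) ^ 2 * blN hK.fin c z y N i ^ 2) atTop
          (𝓝 (∑ m ∈ Finset.range N', ∑ i ∈ GG hK.fin m,
          (L m ^ (k + 1) * (Λ ^ m)⁻¹) ^ 2 * bl c z y i ^ 2)) := by
        apply tendsto_finsetSum
        intro m _
        apply tendsto_finsetSum
        intro i _
        exact ((tends hK hS z y hz1 hy1 i).pow 2).const_mul _
      exact le_of_tendsto' ht fun N => est_N hK hS k z y hz hy hz1 hy1 N N'
    have e2 : ∀ N', ∑ i ∈ BB hK.fin N', (rI L g i ^ (k + 1) * bl c z y i) ^ 2 /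
        (1 + dE ℓ L (Real.exp lam) g i) ≤ a⁻¹ * R := by
      intro N'
      rw [sum_BB]
      calc _ ≤ ∑ m ∈ Finset.range N', ∑ i ∈ GG hK.fin m,
            a⁻¹ * ((L m ^ (k + 1) * (Λ ^ m)⁻¹) ^ 2 * bl c z y i ^ 2) := by
            refine Finset.sum_le_sum fun m _ => Finset.sum_le_sum fun i hi => ?_
            rw [mem_GG] at hi
            have h1 := hd m i hi
            have hΛm : 0 < Λ ^ m := pow_pos (by linarith) _
            have h2 : 0 < a * (Λ ^ m) ^ 2 := by positivity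
            unfold rI
            rw [hi]
            calc (L m ^ (k + 1) * bl c z y i) ^ 2 / (1 + dE ℓ L (Real.exp lam) g i)
                ≤ (L m ^ (k + 1) * bl c z y i) ^ 2 / (a * (Λ ^ m) ^ 2) :=
                  div_le_div_of_nonneg_left (sq_nonneg _) h2 h1
              _ = a⁻¹ * ((L m ^ (k + 1) * (Λ ^ m)⁻¹) ^ 2 * bl c z y i ^ 2) := by
                  field_simp
        _ = a⁻¹ * ∑ m ∈ Finset.range N', ∑ i ∈ GG hK.fin m,
            (L m ^ (k + 1) * (Λ ^ m)⁻¹) ^ 2 * bl c z y i ^ 2 := by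
            rw [Finset.mul_sum]
            refine Finset.sum_congr rfl fun m _ => ?_
            rw [Finset.mul_sum]
        _ ≤ _ := mul_le_mul_of_nonneg_left (e1 N') (inv_nonneg.2 ha.le)
    have hpos : ∀ i, 0 ≤ (rI L g i ^ (k + 1) * bl c z y i) ^ 2 /
        (1 + dE ℓ L (Real.exp lam) g i) := by
      intro i
      have := hd0 i
      positivity
    have e3 : ∀ u : Finset (Ix J), ∑ i ∈ u, (rI L g i ^ (k + 1) * bl c z y i) ^ 2 /
        (1 + dE ℓ L (Real.exp lam) g i) ≤ a⁻¹ * R := by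
      intro u
      obtain ⟨N, hN⟩ := exists_BB hK.fin u
      exact (Finset.sum_le_sum_of_subset_of_nonneg hN (fun i _ _ => hpos i)).trans (e2 N)
    have hsum := summable_of_sum_le hpos e3
    refine ⟨hsum, ?_⟩
    refine (Summable.tsum_le_of_sum_le hsum e3).trans (le_of_eq ?_)
    rw [hR]
    ring

end Pool.Agent.Y290.NE
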