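import Pool.Agent.Y290.NE.Grp

/-!
Bilinear estimates in the weighted `ℓ²`-spaces.
-/

open Set Filter Topology

set_option autoImplicit false

namespace Pool.Agent.Y290.NE

open Pool.Agent.Y5.D Pool.Agent.Y5.E

section

variable {J : Type} {g : J → ℕ} {lam Λ M : ℝ} {L C ℓ : ℕ → ℝ} {B : ℕ → ℕ → ℝ}
  {c : Ix J → Ix J → Ix J → ℝ}

lemma lam_two (hS : Sq lam Λ M L C ℓ B) : 2 ≤ lam := by
  have := hS.lam_big
  have h : (2 : ℝ) ≤ 10 ^ 30 := by norm_num
  linarith

lemma L_geo (hS : Sq lam Λ M L C ℓ B) : (∀ n, 1 ≤ L n) ∧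
    ∀ m j, L m * 2 ^ j ≤ L (m + j) := by
  have h2 := lam_two hS
  have h1 : ∀ n, 1 ≤ L n := by
    intro n
    induction n with
    | zero => exact hS.L0
    | succ n ih => rw [hS.L_succ]; nlinarith
  refine ⟨h1, fun m j => ?_⟩
  induction j with
  | zero => simp
  | succ j ih =>
    rw [← add_assoc, hS.L_succ, pow_succ]
    have := h1 (m + j)
    nlinarith

lemma L_pos (hS : Sq lam Λ M L C ℓ B) (n : ℕ) : 0 < L n :=
  lt_of_lt_of_le one_pos ((L_geo hS).1 n)

lemma L_mono (hS : Sq lam Λ M L C ℓ B) {m p : ℕ} (h : m ≤ p) : L m ≤ L p := by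
  obtain ⟨j, rfl⟩ := Nat.exists_eq_add_of_le h
  have h1 := (L_geo hS).2 m j
  have h2 : (1 : ℝ) ≤ 2 ^ j := one_le_pow₀ (by norm_num)
  have h3 := L_pos hS m
  nlinarith

lemma L_succ_le (hS : Sq lam Λ M L C ℓ B) {m p : ℕ} (h : m ≤ p + 1) : L m ≤ lam * L p := by
  rw [← hS.L_succ]
  exact L_mono hS h

lemma L_half (hS : Sq lam Λ M L C ℓ B) {m p : ℕ} (h : m ≤ p) : L m ≤ hh m p * L p := by
  obtain ⟨j, rfl⟩ := Nat.exists_eq_add_of_le h
  have h1 := (L_geo hS).2 m j
  unfold hh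
  have e : m - (m + j) + (m + j - m) = j := by omega
  rw [e, one_div, inv_pow, ← div_eq_inv_mul, le_div_iff₀ (by positivity)]
  exact h1

lemma hh_half {m p : ℕ} (h1 : m ≤ p + 1) (h2 : p ≤ m + 1) : 1 ≤ 2 * hh m p := by
  unfold hh
  have h : m - p + (p - m) ≤ 1 := by omega
  have h3 : (1 / 2 : ℝ) ^ 1 ≤ (1 / 2) ^ (m - p + (p - m)) :=
    pow_le_pow_of_le_one (by norm_num) (by norm_num) h
  linarith

lemma wg_le (hS : Sq lam Λ M L C ℓ B) (m p q : ℕ) :
    wg Λ M L m p q ≤ M * L m * Λ ^ m * (2 ^ (m + 1) * hh p q) := by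
  have hM := hS.M_one
  have hΛ := hS.Λ_ge
  have hLm := L_pos hS m
  have hh0 := hh_pos p q
  have hΛm : (1 : ℝ) ≤ Λ ^ m := one_le_pow₀ (by linarith)
  unfold wg
  split_ifs with hn
  · have h1 := near_hh hn.2.1 hn.2.2
    have h2 : om Λ M L m p q ≤ M * L m * Λ ^ m := by
      unfold om
      split_ifs with hp
      · have hpm : p ≤ m := hp.trans (min_le_left _ _)
        apply mul_le_mul (mul_le_mul_of_nonneg_left (L_mono hS hpm) (by linarith)) _
          (pow_nonneg (by linarith) _) (mul_nonneg (by linarith) hLm.le)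
        apply pow_le_pow_right₀ (by linarith)
        have := min_le_left m q
        omega
      · have h3 : L (min m q) ≤ L m := L_mono hS (min_le_left _ _)
        have h4 : M * L (min m q) ≤ M * L m := mul_le_mul_of_nonneg_left h3 (by linarith)
        have h5 : 0 ≤ M * L m := mul_nonneg (by linarith) hLm.le
        nlinarith
    have h3 : 0 ≤ M * L m * Λ ^ m :=
      mul_nonneg (mul_nonneg (by linarith) hLm.le) (by linarith)
    nlinarith
  · apply mul_nonneg (mul_nonneg (mul_nonneg (by linarith) hLm.le) (by linarith))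
    positivity

lemma wg_sum (hS : Sq lam Λ M L C ℓ B) (m N : ℕ) (x y : ℕ → ℝ) (hx : ∀ p, 0 ≤ x p)
    (hy : ∀ p, 0 ≤ y p) :
    ∑ p ∈ Finset.range N, ∑ q ∈ Finset.range N, wg Λ M L m p q * x p * y q ≤
      M * L m * Λ ^ m * 2 ^ (m + 1) * (4 * √(∑ p ∈ Finset.range N, x p ^ 2) *
        √(∑ q ∈ Finset.range N, y q ^ 2)) := by
  have hM := hS.M_one
  have hΛ := hS.Λ_ge
  have hLm := L_pos hS m
  have hΛm : (1 : ℝ) ≤ Λ ^ m := one_le_pow₀ (by linarith)
  calc _ ≤ ∑ p ∈ Finset.range N, ∑ q ∈ Finset.range N,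
        (M * L m * Λ ^ m * 2 ^ (m + 1)) * (hh p q * (x p * y q)) := by
        refine Finset.sum_le_sum fun p _ => Finset.sum_le_sum fun q _ => ?_
        have h1 := wg_le hS m p q
        have h2 : 0 ≤ x p * y q := mul_nonneg (hx p) (hy q)
        calc wg Λ M L m p q * x p * y q = wg Λ M L m p q * (x p * y q) := by ring
          _ ≤ (M * L m * Λ ^ m * (2 ^ (m + 1) * hh p q)) * (x p * y q) :=
            mul_le_mul_of_nonneg_right h1 h2
          _ = _ := by ring
    _ = (M * L m * Λ ^ m * 2 ^ (m + 1)) *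
        ∑ p ∈ Finset.range N, ∑ q ∈ Finset.range N, hh p q * (x p * y q) := by
        rw [Finset.mul_sum]
        refine Finset.sum_congr rfl fun p _ => ?_
        rw [Finset.mul_sum]
    _ ≤ _ := by
        apply mul_le_mul_of_nonneg_left (bilin x y N)
        apply mul_nonneg (mul_nonneg (mul_nonneg (by linarith) hLm.le) (by linarith))
        positivity

/-- the weights -/
lemma wg_w (hS : Sq lam Λ M L C ℓ B) (k m p q : ℕ) :
    L m ^ (k + 1) * wg Λ M L m p q ≤ 2 * M * lam ^ (k + 1) * Λ ^ m *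
      ((1 / 2) ^ p * hh m q * (L p * L q ^ (k + 1)) +
        (1 / 2) ^ q * hh m p * (L p ^ (k + 1) * L q) +
        hh m p * hh m q * (L p ^ (k + 1) * L q)) := by
  have hM := hS.M_one
  have hΛ := hS.Λ_ge
  have hlam := lam_two hS
  have hLm := L_pos hS m
  have hLp := L_pos hS p
  have hLq := L_pos hS q
  have hΛ0 : (0 : ℝ) < Λ := by linarith
  have hM0 : (0 : ℝ) < M := by linarith
  have hlam0 : (0 : ℝ) < lam := by linarith
  have hΛm : (1 : ℝ) ≤ Λ ^ m := one_le_pow₀ (by linarith)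
  have hlamk : (1 : ℝ) ≤ lam ^ (k + 1) := one_le_pow₀ (by linarith)
  have hq := hh_pos m q
  have hp := hh_pos m p
  have t1 : 0 ≤ (1 / 2) ^ p * hh m q * (L p * L q ^ (k + 1)) := by positivity
  have t2 : 0 ≤ (1 / 2) ^ q * hh m p * (L p ^ (k + 1) * L q) := by positivity
  have t3 : 0 ≤ hh m p * hh m q * (L p ^ (k + 1) * L q) := by positivity
  have hK : 0 ≤ 2 * M * lam ^ (k + 1) * Λ ^ m := by positivity
  have main : ∀ X t : ℝ, X ≤ 2 * M * lam ^ (k + 1) * Λ ^ m * t →
      t ≤ (1 / 2) ^ p * hh m q * (L p * L q ^ (k + 1)) +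
        (1 / 2) ^ q * hh m p * (L p ^ (k + 1) * L q) +
        hh m p * hh m q * (L p ^ (k + 1) * L q) → X ≤ 2 * M * lam ^ (k + 1) * Λ ^ m *
      ((1 / 2) ^ p * hh m q * (L p * L q ^ (k + 1)) +
        (1 / 2) ^ q * hh m p * (L p ^ (k + 1) * L q) +
        hh m p * hh m q * (L p ^ (k + 1) * L q)) := by
    intro X t h1 h2
    exact h1.trans (mul_le_mul_of_nonneg_left h2 hK)
  unfold wg
  split_ifs with hn
  swap
  · rw [mul_zero]; positivity
  obtain ⟨n1, n2, n3⟩ := hn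
  unfold om
  split_ifs with hc
  · -- `p ≤ min m q`
    have hpm : p ≤ m := hc.trans (min_le_left _ _)
    have hpq : p ≤ q := hc.trans (min_le_right _ _)
    have hmq : m ≤ q + 1 := by omega
    have hqm : q ≤ m + 1 := by omega
    apply main _ ((1 / 2) ^ p * hh m q * (L p * L q ^ (k + 1))) _ (by linarith)
    have a1 : L m ^ (k + 1) ≤ lam ^ (k + 1) * L q ^ (k + 1) := by
      rw [← mul_pow]
      exact pow_le_pow_left₀ hLm.le (L_succ_le hS hmq) _
    have a2 : Λ ^ (min m q - p) ≤ Λ ^ m * (1 / 2) ^ p := by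
      have b1 : Λ ^ (min m q - p) ≤ Λ ^ (m - p) := by
        apply pow_le_pow_right₀ (by linarith)
        have := min_le_left m q
        omega
      have b2 : Λ ^ (m - p) * 2 ^ p ≤ Λ ^ m := by
        calc Λ ^ (m - p) * 2 ^ p ≤ Λ ^ (m - p) * Λ ^ p :=
              mul_le_mul_of_nonneg_left (pow_le_pow_left₀ (by norm_num) hΛ p) (by positivity)
          _ = Λ ^ m := by rw [← pow_add]; congr 1; omega
      have b3 : Λ ^ (m - p) = Λ ^ (m - p) * 2 ^ p * (1 / 2) ^ p := by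
        rw [mul_assoc, ← mul_pow]
        norm_num
      rw [b3] at b1
      exact b1.trans (mul_le_mul_of_nonneg_right b2 (by positivity))
    have a3 : 1 ≤ 2 * hh m q := hh_half hmq hqm
    calc L m ^ (k + 1) * (M * L p * Λ ^ (min m q - p))
        ≤ (lam ^ (k + 1) * L q ^ (k + 1)) * (M * L p * (Λ ^ m * (1 / 2) ^ p)) := by
          apply mul_le_mul a1 (mul_le_mul_of_nonneg_left a2 (by positivity)) (by positivity)
            (by positivity)
      _ = (M * lam ^ (k + 1) * Λ ^ m * ((1 / 2) ^ p * (L p * L q ^ (k + 1)))) * 1 := by ring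
      _ ≤ (M * lam ^ (k + 1) * Λ ^ m * ((1 / 2) ^ p * (L p * L q ^ (k + 1)))) * (2 * hh m q) :=
          mul_le_mul_of_nonneg_left a3 (by positivity)
      _ = _ := by ring
  · have hc' : min m q < p := not_le.1 hc
    by_cases hqm : q < m
    · -- `q < m`, `q < p`
      have e : min m q = q := min_eq_right hqm.le
      rw [e] at hc' ⊢
      have hmp : m ≤ p + 1 := by omega
      have hpm : p ≤ m + 1 := by omega
      apply main _ ((1 / 2) ^ q * hh m p * (L p ^ (k + 1) * L q)) _ (by linarith)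
      have a1 : L m ^ (k + 1) ≤ lam ^ (k + 1) * L p ^ (k + 1) := by
        rw [← mul_pow]
        exact pow_le_pow_left₀ hLm.le (L_succ_le hS hmp) _
      have a2 : 1 ≤ Λ ^ m * (1 / 2) ^ q := by
        have b1 : (2 : ℝ) ^ q ≤ Λ ^ m :=
          (pow_le_pow_left₀ (by norm_num) hΛ q).trans (pow_le_pow_right₀ (by linarith) hqm.le)
        have b2 : (1 : ℝ) = 2 ^ q * (1 / 2) ^ q := by rw [← mul_pow]; norm_num
        exact b2.le.trans (mul_le_mul_of_nonneg_right b1 (by positivity))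
      have a3 : 1 ≤ 2 * hh m p := hh_half hmp hpm
      have a4 : 1 ≤ (Λ ^ m * (1 / 2) ^ q) * (2 * hh m p) := one_le_mul_of_one_le_of_one_le a2 a3
      calc L m ^ (k + 1) * (M * L q)
          ≤ (lam ^ (k + 1) * L p ^ (k + 1)) * (M * L q) :=
            mul_le_mul_of_nonneg_right a1 (by positivity)
        _ = (lam ^ (k + 1) * L p ^ (k + 1)) * (M * L q) * 1 := by ring
        _ ≤ (lam ^ (k + 1) * L p ^ (k + 1)) * (M * L q) *
            ((Λ ^ m * (1 / 2) ^ q) * (2 * hh m p)) :=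
            mul_le_mul_of_nonneg_left a4 (by positivity)
        _ = _ := by ring
    · -- `m ≤ q`, `m < p`
      have hmq : m ≤ q := not_lt.1 hqm
      have e : min m q = m := min_eq_left hmq
      rw [e] at hc' ⊢
      apply main _ (hh m p * hh m q * (L p ^ (k + 1) * L q)) _ (by linarith)
      have a1 : L m ^ k ≤ L p ^ k := pow_le_pow_left₀ hLm.le (L_mono hS hc'.le) _
      have a2 : L m ≤ hh m p * L p := L_half hS hc'.le
      have a3 : L m ≤ hh m q * L q := L_half hS hmq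
      have a4 : 1 ≤ 2 * lam ^ (k + 1) * Λ ^ m := by nlinarith
      calc L m ^ (k + 1) * (M * L m) = M * (L m ^ k * L m * L m) := by ring
        _ ≤ M * (L p ^ k * (hh m p * L p) * (hh m q * L q)) := by
            apply mul_le_mul_of_nonneg_left _ hM0.le
            apply mul_le_mul (mul_le_mul a1 a2 hLm.le (by positivity)) a3 hLm.le (by positivity)
        _ = M * (hh m p * hh m q * (L p ^ (k + 1) * L q)) * 1 := by ring
        _ ≤ M * (hh m p * hh m q * (L p ^ (k + 1) * L q)) * (2 * lam ^ (k + 1) * Λ ^ m) :=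
            mul_le_mul_of_nonneg_left a4 (by positivity)
        _ = _ := by ring

/-! ### Norms -/

lemma nk_le (hf : ∀ m, {j | g j = m}.Finite) (k : ℕ) (z : Ix J → ℝ)
    (hz : Sk (rI L g) k z) (N : ℕ) :
    ∑ p ∈ Finset.range N, (L p ^ k * zn hf z p) ^ 2 ≤ nk (rI L g) k z := by
  have h1 : ∑ p ∈ Finset.range N, (L p ^ k * zn hf z p) ^ 2 =
      ∑ i ∈ BB hf N, (rI L g i ^ k * z i) ^ 2 := by
    rw [sum_BB]
    refine Finset.sum_congr rfl fun p _ => ?_
    rw [mul_pow, zn_sq, Finset.mul_sum]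
    refine Finset.sum_congr rfl fun i hi => ?_
    rw [mem_GG] at hi
    unfold rI
    rw [hi, mul_pow]
  rw [h1]
  exact Summable.sum_le_tsum _ (fun _ _ => sq_nonneg _) hz

lemma Sk_zero (hL : ∀ n, 1 ≤ L n) {k : ℕ} {z : Ix J → ℝ} (hz : Sk (rI L g) k z) :
    Sk (rI L g) 0 z := by
  apply Summable.of_nonneg_of_le (fun _ => sq_nonneg _) _ hz
  intro i
  simp only [pow_zero, one_mul]
  rw [mul_pow]
  have h1 : 1 ≤ (rI L g i ^ k) ^ 2 := one_le_pow₀ (one_le_pow₀ (hL _))
  nlinarith [sq_nonneg (z i)]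

lemma zn_zero_le (hf : ∀ m, {j | g j = m}.Finite) (hL : ∀ n, 1 ≤ L n) {k : ℕ} {z : Ix J → ℝ}
    (hz : Sk (rI L g) k z) (N : ℕ) :
    ∑ p ∈ Finset.range N, (zn hf z p) ^ 2 ≤ ∑' a, z a ^ 2 := by
  have h1 := nk_le hf 0 z (Sk_zero hL hz) N
  have h2 : nk (rI L g) 0 z = ∑' a, z a ^ 2 := by
    unfold nk
    apply tsum_congr
    intro i
    simp
  rw [h2] at h1
  refine le_trans (le_of_eq ?_) h1
  refine Finset.sum_congr rfl fun p _ => ?_
  simp

/-! ### Truncations -/

/-- the truncated bilinear term -/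
noncomputable def blN (hf : ∀ m, {j | g j = m}.Finite) (c : Ix J → Ix J → Ix J → ℝ)
    (z y : Ix J → ℝ) (N : ℕ) (i : Ix J) : ℝ :=
  ∑ p ∈ BB hf N ×ˢ BB hf N, c i p.1 p.2 * z p.1 * y p.2

lemma sum_BB2 (hf : ∀ m, {j | g j = m}.Finite) (F : Ix J → Ix J → ℝ) (N : ℕ) :
    ∑ p ∈ BB hf N ×ˢ BB hf N, F p.1 p.2 = ∑ p ∈ Finset.range N, ∑ q ∈ Finset.range N,
      ∑ a ∈ GG hf p, ∑ b ∈ GG hf q, F a b := by
  rw [Finset.sum_product, sum_BB]
  refine Finset.sum_congr rfl fun p _ => ?_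
  rw [Finset.sum_congr rfl (fun a _ => sum_BB hf (fun b => F a b) N), Finset.sum_comm]

lemma blN_le (hK : Ker g Λ M L C B c) (hS : Sq lam Λ M L C ℓ B) (z y : Ix J → ℝ) (N m : ℕ) :
    √(∑ i ∈ GG hK.fin m, blN hK.fin c z y N i ^ 2) ≤
      ∑ p ∈ Finset.range N, ∑ q ∈ Finset.range N,
        wg Λ M L m p q * zn hK.fin z p * zn hK.fin y q := by
  have hL := L_pos hS
  set α : Ix J → ℝ := blN hK.fin c z y N with hα
  apply le_of_sq_le (Real.sqrt_nonneg _)
  · exact Finset.sum_nonneg fun p _ => Finset.sum_nonneg fun q _ =>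
      mul_nonneg (mul_nonneg (wg_nonneg hS hL m p q) (zn_nonneg _ _ _)) (zn_nonneg _ _ _)
  rw [Real.sq_sqrt (Finset.sum_nonneg fun _ _ => sq_nonneg _)]
  have h1 : ∑ i ∈ GG hK.fin m, α i ^ 2 = ∑ p ∈ Finset.range N, ∑ q ∈ Finset.range N,
      ∑ i ∈ GG hK.fin m, ∑ a ∈ GG hK.fin p, ∑ b ∈ GG hK.fin q, c i a b * α i * z a * y b := by
    have h2 : ∀ i, α i ^ 2 = ∑ p ∈ Finset.range N, ∑ q ∈ Finset.range N,
        ∑ a ∈ GG hK.fin p, ∑ b ∈ GG hK.fin q, c i a b * α i * z a * y b := by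
      intro i
      have h3 : α i = ∑ p ∈ Finset.range N, ∑ q ∈ Finset.range N,
          ∑ a ∈ GG hK.fin p, ∑ b ∈ GG hK.fin q, c i a b * z a * y b := by
        rw [hα]
        unfold blN
        exact sum_BB2 hK.fin (fun a b => c i a b * z a * y b) N
      rw [pow_two]
      nth_rewrite 2 [h3]
      simp_rw [Finset.mul_sum]
      refine Finset.sum_congr rfl fun p _ => Finset.sum_congr rfl fun q _ =>
        Finset.sum_congr rfl fun a _ => Finset.sum_congr rfl fun b _ => ?_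
      ring
    simp_rw [h2]
    rw [Finset.sum_comm]
    refine Finset.sum_congr rfl fun p _ => ?_
    rw [Finset.sum_comm]
  rw [h1]
  have h4 : √(∑ p ∈ Finset.range N, ∑ q ∈ Finset.range N,
      ∑ i ∈ GG hK.fin m, ∑ a ∈ GG hK.fin p, ∑ b ∈ GG hK.fin q, c i a b * α i * z a * y b) =
      zn hK.fin α m := by
    rw [← h1]; rfl
  rw [h4, Finset.sum_mul]
  refine Finset.sum_le_sum fun p _ => ?_
  rw [Finset.sum_mul]
  refine Finset.sum_le_sum fun q _ => ?_
  refine (le_abs_self _).trans ((blk_le hK m p q α z y).trans (le_of_eq ?_))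
  ring

lemma absblk (hK : Ker g Λ M L C B c) (hS : Sq lam Λ M L C ℓ B) (z y : Ix J → ℝ) {m : ℕ}
    (p q : ℕ) {i : Ix J} (hi : gr g i = m) :
    ∑ a ∈ GG hK.fin p, ∑ b ∈ GG hK.fin q, |c i a b * z a * y b| ≤
      wg Λ M L m p q * (√((GG hK.fin p).card : ℝ) * zn hK.fin z p) * zn hK.fin y q := by
  have hL := L_pos hS
  have hw := wg_nonneg hS hL m p q
  have h1 : ∀ a ∈ GG hK.fin p, ∑ b ∈ GG hK.fin q, |c i a b * z a * y b| ≤
      |z a| * (wg Λ M L m p q * zn hK.fin y q) := by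
    intro a ha
    rw [mem_GG] at ha
    have h2 : ∑ b ∈ GG hK.fin q, |c i a b * z a * y b| =
        |z a| * ∑ b ∈ GG hK.fin q, |c i a b| * |y b| := by
      rw [Finset.mul_sum]
      refine Finset.sum_congr rfl fun b _ => ?_
      rw [abs_mul, abs_mul]; ring
    rw [h2]
    apply mul_le_mul_of_nonneg_left _ (abs_nonneg _)
    refine (Real.sum_mul_le_sqrt_mul_sqrt _ _ _).trans ?_
    simp_rw [sq_abs]
    exact mul_le_mul_of_nonneg_right (row_le hK hS hL q hi ha) (Real.sqrt_nonneg _)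
  refine (Finset.sum_le_sum h1).trans ?_
  rw [← Finset.sum_mul]
  have h3 : ∑ a ∈ GG hK.fin p, |z a| ≤ √((GG hK.fin p).card : ℝ) * zn hK.fin z p := by
    have h4 := Real.sum_mul_le_sqrt_mul_sqrt (GG hK.fin p) (fun _ => (1 : ℝ)) (fun a => |z a|)
    simp only [one_mul, one_pow, sq_abs, Finset.sum_const, nsmul_eq_mul, mul_one] at h4
    exact h4
  calc _ ≤ (√((GG hK.fin p).card : ℝ) * zn hK.fin z p) * (wg Λ M L m p q * zn hK.fin y q) :=
        mul_le_mul_of_nonneg_right h3 (mul_nonneg hw (zn_nonneg _ _ _))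
    _ = _ := by ring

lemma exists_BB (hf : ∀ m, {j | g j = m}.Finite) (u : Finset (Ix J)) : ∃ N, u ⊆ BB hf N := by
  refine ⟨u.sup (gr g) + 1, fun i hi => ?_⟩
  rw [mem_BB]
  exact Nat.lt_succ_of_le (Finset.le_sup (f := gr g) hi)

lemma exists_BB2 (hf : ∀ m, {j | g j = m}.Finite) (u : Finset (Ix J × Ix J)) :
    ∃ N, u ⊆ BB hf N ×ˢ BB hf N := by
  refine ⟨u.sup (fun p => max (gr g p.1) (gr g p.2)) + 1, fun i hi => ?_⟩
  rw [Finset.mem_product, mem_BB, mem_BB]
  have h := Finset.le_sup (f := fun p : Ix J × Ix J => max (gr g p.1) (gr g p.2)) hi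
  constructor
  · exact Nat.lt_succ_of_le ((le_max_left _ _).trans h)
  · exact Nat.lt_succ_of_le ((le_max_right _ _).trans h)

lemma summ (hK : Ker g Λ M L C B c) (hS : Sq lam Λ M L C ℓ B) (z y : Ix J → ℝ)
    (hz : Sk (rI L g) 1 z) (hy : Sk (rI L g) 1 y) (i : Ix J) :
    Summable (fun p : Ix J × Ix J => c i p.1 p.2 * z p.1 * y p.2) := by
  obtain ⟨D, hD⟩ := hK.card
  have hL := (L_geo hS).1
  apply Summable.of_abs
  have hD1 : ∀ p, √((GG hK.fin p).card : ℝ) ≤ √(1 + |D|) * L p := by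
    intro p
    have h1 : ((GG hK.fin p).card : ℝ) ≤ (1 + |D|) * L p ^ 2 := by
      have h2 := card_GG hK.fin p
      have h3 := hD p
      have h4 : D * L p ^ 2 ≤ |D| * L p ^ 2 :=
        mul_le_mul_of_nonneg_right (le_abs_self D) (sq_nonneg _)
      have h5 : 1 ≤ L p ^ 2 := one_le_pow₀ (hL p)
      linarith
    calc √((GG hK.fin p).card : ℝ) ≤ √((1 + |D|) * L p ^ 2) := Real.sqrt_le_sqrt h1
      _ = √(1 + |D|) * L p := by
        rw [Real.sqrt_mul (by positivity), Real.sqrt_sq (by linarith [hL p])]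
  set m := gr g i with hm
  have hM := hS.M_one
  have hΛ := hS.Λ_ge
  have hLm := L_pos hS m
  apply summable_of_sum_le (c := M * L m * Λ ^ m * 2 ^ (m + 1) *
    (4 * √((1 + |D|) * nk (rI L g) 1 z) * √(∑' a, y a ^ 2))) (fun _ => abs_nonneg _)
  intro u
  obtain ⟨N, hN⟩ := exists_BB2 hK.fin u
  refine (Finset.sum_le_sum_of_subset_of_nonneg hN (fun _ _ _ => abs_nonneg _)).trans ?_
  rw [sum_BB2 hK.fin (fun a b => |c i a b * z a * y b|)]
  calc _ ≤ ∑ p ∈ Finset.range N, ∑ q ∈ Finset.range N, wg Λ M L m p q *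
        (√(1 + |D|) * (L p ^ 1 * zn hK.fin z p)) * zn hK.fin y q := by
        refine Finset.sum_le_sum fun p _ => Finset.sum_le_sum fun q _ => ?_
        refine (absblk hK hS z y p q hm.symm).trans ?_
        apply mul_le_mul_of_nonneg_right _ (zn_nonneg _ _ _)
        apply mul_le_mul_of_nonneg_left _ (wg_nonneg hS (L_pos hS) _ _ _)
        have := mul_le_mul_of_nonneg_right (hD1 p) (zn_nonneg hK.fin z p)
        rw [pow_one]
        linarith
    _ ≤ M * L m * Λ ^ m * 2 ^ (m + 1) * (4 *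
        √(∑ p ∈ Finset.range N, (√(1 + |D|) * (L p ^ 1 * zn hK.fin z p)) ^ 2) *
        √(∑ q ∈ Finset.range N, zn hK.fin y q ^ 2)) := by
        apply wg_sum hS m N
        · intro p
          have := L_pos hS p
          have := zn_nonneg hK.fin z p
          positivity
        · exact zn_nonneg hK.fin y
    _ ≤ _ := by
        apply mul_le_mul_of_nonneg_left
        · apply mul_le_mul
          · apply mul_le_mul_of_nonneg_left _ (by norm_num)
            apply Real.sqrt_le_sqrt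
            simp_rw [mul_pow (√(1 + |D|)), Real.sq_sqrt (show (0 : ℝ) ≤ 1 + |D| by positivity)]
            rw [← Finset.mul_sum]
            exact mul_le_mul_of_nonneg_left (nk_le hK.fin 1 z hz N) (by positivity)
          · exact Real.sqrt_le_sqrt (zn_zero_le hK.fin hL hy N)
          · exact Real.sqrt_nonneg _
          · positivity
        · positivity

lemma tends (hK : Ker g Λ M L C B c) (hS : Sq lam Λ M L C ℓ B) (z y : Ix J → ℝ)
    (hz : Sk (rI L g) 1 z) (hy : Sk (rI L g) 1 y) (i : Ix J) :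
    Tendsto (fun N => blN hK.fin c z y N i) atTop (𝓝 (bl c z y i)) := by
  have h1 : Tendsto (fun s : Finset (Ix J × Ix J) => ∑ p ∈ s, c i p.1 p.2 * z p.1 * y p.2) atTop
      (𝓝 (bl c z y i)) := (summ hK hS z y hz hy i).hasSum
  apply h1.comp (g := fun s : Finset (Ix J × Ix J) => ∑ p ∈ s, c i p.1 p.2 * z p.1 * y p.2)
    (f := fun N => BB hK.fin N ×ˢ BB hK.fin N)
  apply tendsto_atTop_finset_of_monotone
  · intro a b hab x hx
    rw [Finset.mem_product, mem_BB, mem_BB] at hx ⊢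
    omega
  · intro x
    obtain ⟨N, hN⟩ := exists_BB2 hK.fin {x}
    exact ⟨N, hN (Finset.mem_singleton_self x)⟩

lemma loc_est (hK : Ker g Λ M L C B c) (hS : Sq lam Λ M L C ℓ B) (z y : Ix J → ℝ)
    (hz : Sk (rI L g) 1 z) (hy : Sk (rI L g) 1 y) (i : Ix J) :
    |bl c z y i| ≤ M * L (gr g i) * Λ ^ (gr g i) * 2 ^ (gr g i + 1) * 4 * √(∑' a, z a ^ 2) *
      √(∑' a, y a ^ 2) := by
  have hL := (L_geo hS).1
  have hM := hS.M_one
  have hΛ := hS.Λ_ge
  set m := gr g i with hm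
  have hLm := L_pos hS m
  apply le_of_tendsto' ((tends hK hS z y hz hy i).abs)
  intro N
  have h1 : |blN hK.fin c z y N i| ≤ √(∑ i ∈ GG hK.fin m, blN hK.fin c z y N i ^ 2) := by
    apply Real.abs_le_sqrt
    exact Finset.single_le_sum (f := fun i => blN hK.fin c z y N i ^ 2)
      (fun _ _ => sq_nonneg _) (mem_GG.2 hm.symm)
  refine h1.trans ((blN_le hK hS z y N m).trans ?_)
  refine (wg_sum hS m N _ _ (zn_nonneg hK.fin z) (zn_nonneg hK.fin y)).trans ?_
  calc _ ≤ M * L m * Λ ^ m * 2 ^ (m + 1) * (4 * √(∑' a, z a ^ 2) * √(∑' a, y a ^ 2)) := by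
        apply mul_le_mul_of_nonneg_left
        · apply mul_le_mul
          · apply mul_le_mul_of_nonneg_left _ (by norm_num)
            exact Real.sqrt_le_sqrt (zn_zero_le hK.fin hL hz N)
          · exact Real.sqrt_le_sqrt (zn_zero_le hK.fin hL hy N)
          · exact Real.sqrt_nonneg _
          · positivity
        · positivity
    _ = _ := by ring

end

end Pool.Agent.Y290.NE
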