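import Pool.Agent.Y5.E.Stm
import Pool.Agent.Y290.NE.Disc

/-!
Finite groups of modes, and the bounds for the blocks of the kernel.
-/

open Set Filter Topology

set_option autoImplicit false

namespace Pool.Agent.Y290.NE

open Pool.Agent.Y5.D Pool.Agent.Y5.E

section

variable {J : Type} {g : J → ℕ}

lemma gfin (hf : ∀ m, {j | g j = m}.Finite) (m : ℕ) : {i : Ix J | gr g i = m}.Finite := by
  apply ((Set.finite_singleton (Sum.inl m : Ix J)).union ((hf m).image Sum.inr)).subset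
  rintro (n | j) h
  · left
    have : n = m := h
    rw [this]
    rfl
  · right
    exact ⟨j, h, rfl⟩

/-- the group `m` -/
noncomputable def GG (hf : ∀ m, {j | g j = m}.Finite) (m : ℕ) : Finset (Ix J) :=
  (gfin hf m).toFinset

lemma mem_GG {hf : ∀ m, {j | g j = m}.Finite} {m : ℕ} {i : Ix J} :
    i ∈ GG hf m ↔ gr g i = m := by
  simp [GG]

lemma bfin (hf : ∀ m, {j | g j = m}.Finite) (N : ℕ) : {i : Ix J | gr g i < N}.Finite := by
  apply ((Set.finite_lt_nat N).biUnion (fun m _ => gfin hf m)).subset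
  intro i hi
  simp only [Set.mem_iUnion, Set.mem_setOf_eq]
  exact ⟨gr g i, hi, rfl⟩

/-- the groups `< N` -/
noncomputable def BB (hf : ∀ m, {j | g j = m}.Finite) (N : ℕ) : Finset (Ix J) :=
  (bfin hf N).toFinset

lemma mem_BB {hf : ∀ m, {j | g j = m}.Finite} {N : ℕ} {i : Ix J} :
    i ∈ BB hf N ↔ gr g i < N := by
  simp [BB]

lemma sum_BB (hf : ∀ m, {j | g j = m}.Finite) (f : Ix J → ℝ) (N : ℕ) :
    ∑ i ∈ BB hf N, f i = ∑ p ∈ Finset.range N, ∑ i ∈ GG hf p, f i := by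
  classical
  rw [← Finset.sum_fiberwise_of_maps_to (s := BB hf N) (t := Finset.range N) (g := gr g)
    (fun i hi => Finset.mem_range.2 (mem_BB.1 hi))]
  apply Finset.sum_congr rfl
  intro p hp
  apply Finset.sum_congr _ (fun _ _ => rfl)
  ext i
  simp only [Finset.mem_filter, mem_BB, mem_GG]
  constructor
  · exact fun h => h.2
  · intro h
    exact ⟨h ▸ Finset.mem_range.1 hp, h⟩

lemma card_GG (hf : ∀ m, {j | g j = m}.Finite) (m : ℕ) :
    ((GG hf m).card : ℝ) ≤ 1 + ({j | g j = m}.ncard : ℝ) := by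
  have h1 : (GG hf m).card = {i : Ix J | gr g i = m}.ncard := by
    rw [Set.ncard_eq_toFinset_card _ (gfin hf m)]
    rfl
  have h2 : {i : Ix J | gr g i = m} ⊆ insert (Sum.inl m : Ix J) (Sum.inr '' {j | g j = m}) := by
    rintro (n | j) h
    · left
      have : n = m := h
      rw [this]
    · right
      exact ⟨j, h, rfl⟩
  have h3 := Set.ncard_le_ncard h2 (((hf m).image _).insert _)
  have h4 := Set.ncard_insert_le (Sum.inl m : Ix J) (Sum.inr '' {j | g j = m})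
  have h5 : (Sum.inr '' {j | g j = m} : Set (Ix J)).ncard = {j | g j = m}.ncard :=
    Set.ncard_image_of_injective _ Sum.inr_injective
  rw [h1]
  have h6 : {i : Ix J | gr g i = m}.ncard ≤ 1 + {j | g j = m}.ncard := by omega
  exact_mod_cast h6

/-- norm of the group `p` -/
noncomputable def zn (hf : ∀ m, {j | g j = m}.Finite) (z : Ix J → ℝ) (p : ℕ) : ℝ :=
  √(∑ i ∈ GG hf p, z i ^ 2)

lemma zn_nonneg (hf : ∀ m, {j | g j = m}.Finite) (z : Ix J → ℝ) (p : ℕ) : 0 ≤ zn hf z p :=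
  Real.sqrt_nonneg _

lemma zn_sq (hf : ∀ m, {j | g j = m}.Finite) (z : Ix J → ℝ) (p : ℕ) :
    zn hf z p ^ 2 = ∑ i ∈ GG hf p, z i ^ 2 :=
  Real.sq_sqrt (Finset.sum_nonneg fun _ _ => sq_nonneg _)

/-- bound for the block `(m, p, q)` -/
noncomputable def wg (Λ M : ℝ) (L : ℕ → ℝ) (m p q : ℕ) : ℝ :=
  if m ≤ max p q + 1 ∧ p ≤ max m q + 1 ∧ q ≤ max m p + 1 then om Λ M L m p q else 0

lemma tl_eq (hf : ∀ m, {j | g j = m}.Finite) (c : Ix J → Ix J → Ix J → ℝ) (m p q : ℕ)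
    (α β γ : Ix J → ℝ) (hα : ∀ i, gr g i ≠ m → α i = 0)
    (hβ : ∀ i, gr g i ≠ p → β i = 0) (hγ : ∀ i, gr g i ≠ q → γ i = 0) :
    tl c α β γ = ∑ i ∈ GG hf m, ∑ a ∈ GG hf p, ∑ b ∈ GG hf q, c i a b * α i * β a * γ b := by
  unfold tl
  rw [tsum_eq_sum (s := GG hf m ×ˢ (GG hf p ×ˢ GG hf q))]
  · rw [Finset.sum_product]
    apply Finset.sum_congr rfl
    intro i _
    rw [Finset.sum_product]
  · rintro ⟨i, a, b⟩ h
    simp only [Finset.mem_product, mem_GG, not_and_or] at h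
    rcases h with h | h | h
    · simp [hα i h]
    · simp [hβ a h]
    · simp [hγ b h]

lemma tsum_sq_eq (hf : ∀ m, {j | g j = m}.Finite) (m : ℕ) (α : Ix J → ℝ)
    (hα : ∀ i, gr g i ≠ m → α i = 0) : ∑' i, α i ^ 2 = ∑ i ∈ GG hf m, α i ^ 2 := by
  rw [tsum_eq_sum (s := GG hf m)]
  intro i hi
  rw [mem_GG] at hi
  rw [hα i hi]
  norm_num

variable {lam Λ M : ℝ} {L C ℓ : ℕ → ℝ} {B : ℕ → ℕ → ℝ} {c : Ix J → Ix J → Ix J → ℝ}

lemma blk_le (hK : Ker g Λ M L C B c) (m p q : ℕ) (α β γ : Ix J → ℝ) :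
    |∑ i ∈ GG hK.fin m, ∑ a ∈ GG hK.fin p, ∑ b ∈ GG hK.fin q, c i a b * α i * β a * γ b| ≤
      wg Λ M L m p q * zn hK.fin α m * zn hK.fin β p * zn hK.fin γ q := by
  classical
  unfold wg
  split_ifs with hn
  · set α' : Ix J → ℝ := fun i => if gr g i = m then α i else 0 with hα'
    set β' : Ix J → ℝ := fun i => if gr g i = p then β i else 0 with hβ'
    set γ' : Ix J → ℝ := fun i => if gr g i = q then γ i else 0 with hγ'
    have h1 : ∀ i, gr g i ≠ m → α' i = 0 := fun i hi => by simp [hα', hi]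
    have h2 : ∀ i, gr g i ≠ p → β' i = 0 := fun i hi => by simp [hβ', hi]
    have h3 : ∀ i, gr g i ≠ q → γ' i = 0 := fun i hi => by simp [hγ', hi]
    have h := hK.tri m p q α' β' γ' h1 h2 h3
    rw [tl_eq hK.fin c m p q α' β' γ' h1 h2 h3, tsum_sq_eq hK.fin m α' h1,
      tsum_sq_eq hK.fin p β' h2, tsum_sq_eq hK.fin q γ' h3] at h
    have e1 : ∑ i ∈ GG hK.fin m, ∑ a ∈ GG hK.fin p, ∑ b ∈ GG hK.fin q,
        c i a b * α' i * β' a * γ' b = ∑ i ∈ GG hK.fin m, ∑ a ∈ GG hK.fin p,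
          ∑ b ∈ GG hK.fin q, c i a b * α i * β a * γ b := by
      refine Finset.sum_congr rfl fun i hi => Finset.sum_congr rfl fun a ha =>
        Finset.sum_congr rfl fun b hb => ?_
      rw [mem_GG] at hi ha hb
      simp [hα', hβ', hγ', hi, ha, hb]
    have e2 : ∑ i ∈ GG hK.fin m, α' i ^ 2 = ∑ i ∈ GG hK.fin m, α i ^ 2 :=
      Finset.sum_congr rfl fun i hi => by rw [mem_GG] at hi; simp [hα', hi]
    have e3 : ∑ i ∈ GG hK.fin p, β' i ^ 2 = ∑ i ∈ GG hK.fin p, β i ^ 2 :=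
      Finset.sum_congr rfl fun i hi => by rw [mem_GG] at hi; simp [hβ', hi]
    have e4 : ∑ i ∈ GG hK.fin q, γ' i ^ 2 = ∑ i ∈ GG hK.fin q, γ i ^ 2 :=
      Finset.sum_congr rfl fun i hi => by rw [mem_GG] at hi; simp [hγ', hi]
    rw [e1, e2, e3, e4] at h
    exact h
  · have e : ∑ i ∈ GG hK.fin m, ∑ a ∈ GG hK.fin p, ∑ b ∈ GG hK.fin q,
        c i a b * α i * β a * γ b = 0 := by
      refine Finset.sum_eq_zero fun i hi => Finset.sum_eq_zero fun a ha =>
        Finset.sum_eq_zero fun b hb => ?_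
      rw [mem_GG] at hi ha hb
      have hc : c i a b = 0 := by
        by_contra hc
        apply hn
        have := hK.near i a b hc
        rw [hi, ha, hb] at this
        exact this
      simp [hc]
    rw [e]
    simp

lemma le_of_sq_le {x y : ℝ} (hx : 0 ≤ x) (hy : 0 ≤ y) (h : x ^ 2 ≤ y * x) : x ≤ y := by
  by_contra hc
  push Not at hc
  have : y * x < x * x := mul_lt_mul_of_pos_right hc (lt_of_le_of_lt hy hc)
  nlinarith

lemma om_nonneg (hS : Sq lam Λ M L C ℓ B) (hL : ∀ n, 0 < L n) (m p q : ℕ) :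
    0 ≤ om Λ M L m p q := by
  have hM := hS.M_one
  have hΛ := hS.Λ_ge
  unfold om
  split_ifs
  · exact mul_nonneg (mul_nonneg (by linarith) (hL _).le) (pow_nonneg (by linarith) _)
  · exact mul_nonneg (by linarith) (hL _).le

lemma wg_nonneg (hS : Sq lam Λ M L C ℓ B) (hL : ∀ n, 0 < L n) (m p q : ℕ) :
    0 ≤ wg Λ M L m p q := by
  unfold wg
  split_ifs
  · exact om_nonneg hS hL m p q
  · exact le_rfl

lemma row_le (hK : Ker g Λ M L C B c) (hS : Sq lam Λ M L C ℓ B) (hL : ∀ n, 0 < L n)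
    {m p : ℕ} (q : ℕ) {i a : Ix J} (hi : gr g i = m) (ha : gr g a = p) :
    √(∑ b ∈ GG hK.fin q, c i a b ^ 2) ≤ wg Λ M L m p q := by
  classical
  have h := blk_le hK m p q (fun j => if j = i then 1 else 0) (fun j => if j = a then 1 else 0)
    (fun b => c i a b)
  have e1 : ∀ (i : Ix J) (m : ℕ), gr g i = m → zn hK.fin (fun j => if j = i then 1 else 0) m = 1 := by
    intro i m hi
    unfold zn
    have : ∑ j ∈ GG hK.fin m, (if j = i then (1 : ℝ) else 0) ^ 2 = 1 := by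
      rw [Finset.sum_eq_single i]
      · simp
      · intro b _ hb; simp [hb]
      · intro hh; exact absurd (mem_GG.2 hi) hh
    rw [this]
    exact Real.sqrt_one
  rw [e1 i m hi, e1 a p ha] at h
  have e2 : ∑ j ∈ GG hK.fin m, ∑ a' ∈ GG hK.fin p, ∑ b ∈ GG hK.fin q,
      c j a' b * (if j = i then 1 else 0) * (if a' = a then 1 else 0) * c i a b =
      ∑ b ∈ GG hK.fin q, c i a b ^ 2 := by
    rw [Finset.sum_eq_single i]
    · rw [Finset.sum_eq_single a]
      · apply Finset.sum_congr rfl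
        intro b _
        simp
        ring
      · intro b _ hb; simp [hb]
      · intro hh; exact absurd (mem_GG.2 ha) hh
    · intro b _ hb; simp [hb]
    · intro hh; exact absurd (mem_GG.2 hi) hh
  rw [e2, abs_of_nonneg (Finset.sum_nonneg fun _ _ => sq_nonneg _)] at h
  apply le_of_sq_le (Real.sqrt_nonneg _) (wg_nonneg hS hL m p q)
  rw [Real.sq_sqrt (Finset.sum_nonneg fun _ _ => sq_nonneg _)]
  have : zn hK.fin (fun b => c i a b) q = √(∑ b ∈ GG hK.fin q, c i a b ^ 2) := rfl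
  rw [this] at h
  linarith

end

end Pool.Agent.Y290.NE
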